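import Pool.Agent.H222Z.ES.Stm

/-! The class lemma for MP_7f94de_pr: constrained equilibrium measure and rounded nodes. -/

namespace Pool.Agent.H90Z.ES

open Finset Pool.Agent.H222Z.ES

section Round

variable {Ω : Type} [Fintype Ω] {β : Type} [DecidableEq β]

lemma fib_le (cell : Ω → β) (f g : Ω → ℝ) (e : ℝ) (C : Finset β)
    (h : ∀ c, ∑ y ∈ univ.filter (fun y => cell y = c), f y ≤
      ∑ y ∈ univ.filter (fun y => cell y = c), g y + e) :
    ∑ y ∈ univ.filter (fun y => cell y ∈ C), f y ≤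
      ∑ y ∈ univ.filter (fun y => cell y ∈ C), g y + C.card * e := by
  have key : ∀ F : Ω → ℝ, ∑ y ∈ univ.filter (fun y => cell y ∈ C), F y =
      ∑ c ∈ C, ∑ y ∈ univ.filter (fun y => cell y = c), F y := by
    intro F
    rw [← Finset.sum_fiberwise_of_maps_to (s := univ.filter (fun y => cell y ∈ C)) (t := C)
      (g := cell) (fun y hy => (Finset.mem_filter.1 hy).2)]
    refine Finset.sum_congr rfl fun c hc => Finset.sum_congr ?_ fun _ _ => rfl
    ext y
    simp only [Finset.mem_filter, Finset.mem_univ, true_and]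
    constructor
    · exact fun h => h.2
    · intro h; exact ⟨h ▸ hc, h⟩
  rw [key, key]
  calc _ ≤ ∑ c ∈ C, (∑ y ∈ univ.filter (fun y => cell y = c), g y + e) :=
        Finset.sum_le_sum fun c _ => h c
    _ = _ := by rw [Finset.sum_add_distrib]; simp

lemma fib_total (cell : Ω → β) (f g : Ω → ℝ)
    (h : ∀ c, ∑ y ∈ univ.filter (fun y => cell y = c), f y ≤
      ∑ y ∈ univ.filter (fun y => cell y = c), g y) : ∑ y, f y ≤ ∑ y, g y := by
  have := fib_le cell f g 0 (univ.image cell) (fun c => by simpa using h c)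
  rw [Finset.filter_true_of_mem (fun y _ => Finset.mem_image_of_mem cell (Finset.mem_univ y))]
    at this
  simpa using this

lemma topup (cell : Ω → β) (μ : Ω → ℝ) (N0 : Ω → ℕ) (h0 : ∀ y, N0 y ≠ 0 → 0 < μ y)
    (h1 : ∀ c, ∑ y ∈ univ.filter (fun y => cell y = c), (N0 y : ℝ) ≤
      ∑ y ∈ univ.filter (fun y => cell y = c), μ y) :
    ∃ Nn : Ω → ℕ, (∀ y, N0 y ≤ Nn y) ∧ (∀ y, Nn y ≠ 0 → 0 < μ y) ∧
      (∀ c, ∑ y ∈ univ.filter (fun y => cell y = c), (Nn y : ℝ) ≤
        ∑ y ∈ univ.filter (fun y => cell y = c), μ y) ∧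
      (∀ c, ∑ y ∈ univ.filter (fun y => cell y = c), μ y ≤
        ∑ y ∈ univ.filter (fun y => cell y = c), (Nn y : ℝ) + 1) := by
  classical
  let S : Set ℕ := {t | ∃ Nn : Ω → ℕ, (∀ y, N0 y ≤ Nn y) ∧ (∀ y, Nn y ≠ 0 → 0 < μ y) ∧
      (∀ c, ∑ y ∈ univ.filter (fun y => cell y = c), (Nn y : ℝ) ≤
        ∑ y ∈ univ.filter (fun y => cell y = c), μ y) ∧ ∑ y, Nn y = t}
  have hne : S.Nonempty := ⟨_, N0, fun _ => le_rfl, h0, h1, rfl⟩
  have hbd : BddAbove S := by
    refine ⟨⌈∑ y, μ y⌉₊, ?_⟩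
    rintro t ⟨Nn, -, -, h, rfl⟩
    have := fib_total cell (fun y => (Nn y : ℝ)) μ h
    have h2 : ((∑ y, Nn y : ℕ) : ℝ) ≤ (⌈∑ y, μ y⌉₊ : ℝ) := by
      push_cast; exact this.trans (Nat.le_ceil _)
    exact_mod_cast h2
  obtain ⟨Nn, a1, a2, a3, a4⟩ := Nat.sSup_mem hne hbd
  refine ⟨Nn, a1, a2, a3, fun c => ?_⟩
  by_contra hc
  push Not at hc
  have hpos : 0 < ∑ y ∈ univ.filter (fun y => cell y = c), μ y := by
    have : (0 : ℝ) ≤ ∑ y ∈ univ.filter (fun y => cell y = c), (Nn y : ℝ) := by positivity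
    linarith
  obtain ⟨x, hx, hμ⟩ : ∃ x ∈ univ.filter (fun y => cell y = c), 0 < μ x := by
    by_contra hh
    push Not at hh
    exact absurd (Finset.sum_nonpos hh) (not_le.2 hpos)
  have hx' : cell x = c := (Finset.mem_filter.1 hx).2
  have hmem : (∑ y, Nn y) + 1 ∈ S := by
    refine ⟨fun y => Nn y + if y = x then 1 else 0, fun y => (a1 y).trans (Nat.le_add_right _ _),
      fun y hy => ?_, fun c' => ?_, ?_⟩
    · by_cases hyx : y = x
      · rw [hyx]; exact hμ
      · exact a2 y (by simpa [hyx] using hy)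
    · push_cast
      rw [Finset.sum_add_distrib, Finset.sum_ite_eq']
      by_cases hcc : c' = c
      · rw [hcc, if_pos hx]; exact hc.le
      · rw [if_neg, add_zero]
        · exact a3 c'
        · intro h; exact hcc ((Finset.mem_filter.1 h).2.symm.trans hx')
    · rw [Finset.sum_add_distrib, Finset.sum_ite_eq']; simp
  have := le_csSup hbd hmem
  omega

lemma rounding (μ : Ω → ℝ) (hμ : ∀ y, 0 ≤ μ y) (N : ℕ) : ∀ (cell : ℕ → Ω → β),
    (∀ s x y, cell (s + 1) x = cell (s + 1) y → cell s x = cell s y) →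
    ∃ Nn : Ω → ℕ, (∀ y, Nn y ≠ 0 → 0 < μ y) ∧
      (∀ c, ∑ y ∈ univ.filter (fun y => cell 0 y = c), (Nn y : ℝ) ≤
        ∑ y ∈ univ.filter (fun y => cell 0 y = c), μ y) ∧
      (∀ s ≤ N, ∀ c, ∑ y ∈ univ.filter (fun y => cell s y = c), μ y ≤
        ∑ y ∈ univ.filter (fun y => cell s y = c), (Nn y : ℝ) + 1) := by
  induction N with
  | zero =>
    intro cell _
    obtain ⟨Nn, -, b2, b3, b4⟩ := topup (cell 0) μ (fun _ => 0) (by simp)
      (fun c => by simpa using Finset.sum_nonneg fun y _ => hμ y)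
    refine ⟨Nn, b2, b3, fun s hs c => ?_⟩
    obtain rfl : s = 0 := by omega
    exact b4 c
  | succ N ih =>
    intro cell hn
    obtain ⟨N0, a1, a2, a3⟩ := ih (fun s => cell (s + 1)) (fun s => hn (s + 1))
    have h1 : ∀ c, ∑ y ∈ univ.filter (fun y => cell 0 y = c), (N0 y : ℝ) ≤
        ∑ y ∈ univ.filter (fun y => cell 0 y = c), μ y := by
      intro c
      have := fib_le (cell 1) (fun y => (N0 y : ℝ)) μ 0
        ((univ.filter (fun y => cell 0 y = c)).image (cell 1)) (fun c => by simpa using a2 c)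
      have e : univ.filter (fun y => cell 1 y ∈
          (univ.filter (fun y => cell 0 y = c)).image (cell 1)) =
          univ.filter (fun y => cell 0 y = c) := by
        ext y
        simp only [Finset.mem_filter, Finset.mem_univ, true_and, Finset.mem_image]
        constructor
        · rintro ⟨x, hx, hxy⟩
          rw [← hx]; exact (hn 0 x y hxy).symm
        · intro h; exact ⟨y, h, rfl⟩
      rw [e] at this
      simpa using this
    obtain ⟨Nn, b1, b2, b3, b4⟩ := topup (cell 0) μ N0 a1 h1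
    refine ⟨Nn, b2, b3, fun s hs c => ?_⟩
    rcases s with _ | s
    · exact b4 c
    · refine (a3 s (by omega) c).trans ?_
      have : ∑ y ∈ univ.filter (fun y => cell (s + 1) y = c), (N0 y : ℝ) ≤
          ∑ y ∈ univ.filter (fun y => cell (s + 1) y = c), (Nn y : ℝ) :=
        Finset.sum_le_sum fun y _ => by exact_mod_cast b1 y
      linarith

end Round

section Equil

variable {Ω : Type} [Fintype Ω]

lemma equil (m : Ω → ℝ) (hm : ∀ y, 0 ≤ m y) (κ : Ω → Ω → ℝ) (hs : ∀ x y, κ x y = κ y x)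
    (V : ℝ) : ∃ ν : Ω → ℝ, (∀ y, 0 ≤ ν y ∧ ν y ≤ m y) ∧
      (∀ x, 0 < ν x → ∑ y, ν y * κ x y ≤ V) ∧ (∀ x, ν x < m x → V ≤ ∑ y, ν y * κ x y) := by
  classical
  let J : (Ω → ℝ) → ℝ := fun ν => (1 / 2) * (∑ x, ∑ y, ν x * ν y * κ x y) - V * ∑ x, ν x
  have hJ : Continuous J := by fun_prop
  obtain ⟨ν, hν, hmin⟩ := (isCompact_Icc (a := (0 : Ω → ℝ)) (b := m)).exists_isMinOn
    ⟨0, le_rfl, fun y => hm y⟩ hJ.continuousOn
  have pert : ∀ x e, J (fun y => ν y + if y = x then e else 0) =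
      J ν + e * (∑ y, ν y * κ x y - V) + e ^ 2 * κ x x / 2 := by
    intro x e
    simp only [J, add_mul, mul_add, Finset.sum_add_distrib, ite_mul, mul_ite, zero_mul, mul_zero,
      Finset.sum_ite_eq', Finset.mem_univ, if_true, Finset.sum_ite_irrel, Finset.sum_const_zero]
    have e1 : ∑ y, ν y * e * κ y x = e * ∑ y, ν y * κ x y := by
      rw [Finset.mul_sum]; exact Finset.sum_congr rfl fun y _ => by rw [hs y x]; ring
    have e2 : ∑ y, e * ν y * κ x y = e * ∑ y, ν y * κ x y := by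
      rw [Finset.mul_sum]; exact Finset.sum_congr rfl fun y _ => by ring
    rw [e1, e2]; ring
  have key : ∀ x e, 0 ≤ ν x + e → ν x + e ≤ m x →
      0 ≤ e * (∑ y, ν y * κ x y - V) + e ^ 2 * κ x x / 2 := by
    intro x e h1 h2
    have hmem : (fun y => ν y + if y = x then e else 0) ∈ Set.Icc (0 : Ω → ℝ) m := by
      constructor
      · intro y
        by_cases hy : y = x
        · simpa [hy] using h1
        · simpa [hy] using hν.1 y
      · intro y
        by_cases hy : y = x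
        · simpa [hy] using h2
        · simpa [hy] using hν.2 y
    have := hmin hmem
    change J ν ≤ J _ at this
    rw [pert] at this
    linarith
  have small : ∀ (D K r : ℝ), 0 < r → (∀ ε, 0 < ε → ε ≤ r → 0 ≤ ε * D + ε ^ 2 * K / 2) → 0 ≤ D := by
    intro D K r hr h
    by_contra hD
    push Not at hD
    have hK : 0 < |K| + 1 := by positivity
    set ε := min r (-D / (|K| + 1)) with hε
    have hε0 : 0 < ε := lt_min hr (div_pos (by linarith) hK)
    have h1 := h ε hε0 (min_le_left _ _)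
    have h2 : ε * (|K| + 1) ≤ -D := (le_div_iff₀ hK).1 (min_le_right _ _)
    have h3 : 0 ≤ D + ε * K / 2 := by
      have : 0 ≤ ε * (D + ε * K / 2) := by linarith
      exact (mul_nonneg_iff_of_pos_left hε0).1 this
    have h4 : ε * K ≤ ε * |K| := mul_le_mul_of_nonneg_left (le_abs_self K) hε0.le
    have h5 : 0 ≤ ε * |K| := by positivity
    nlinarith
  refine ⟨ν, fun y => ⟨hν.1 y, hν.2 y⟩, fun x hx => ?_, fun x hx => ?_⟩
  · have := small (V - ∑ y, ν y * κ x y) (κ x x) (ν x) hx fun ε h1 h2 => by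
      have := key x (-ε) (by linarith) (by linarith [hν.2 x])
      linarith
    linarith
  · have := small (∑ y, ν y * κ x y - V) (κ x x) (m x - ν x) (by linarith) fun ε h1 h2 =>
      key x ε (by linarith [show (0 : ℝ) ≤ ν x from hν.1 x]) (by linarith)
    linarith

end Equil

lemma kk_near {N : ℕ} {a b ζ : ℂ} (h : ‖b - ζ‖ ≤ ‖a - ζ‖) : kk N a ζ ≤ 1 + kk N a b := by
  unfold kk
  have hab : ‖a - b‖ ≤ 2 * ‖a - ζ‖ := by
    have : a - b = (a - ζ) - (b - ζ) := by ring
    rw [this]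
    linarith [norm_sub_le (a - ζ) (b - ζ)]
  have hsub : ((Finset.Icc 1 N).filter fun s => ‖a - ζ‖ ≤ (1 / 2 : ℝ) ^ s) ⊆
      insert 1 ((((Finset.Icc 1 N).filter fun s => ‖a - b‖ ≤ (1 / 2 : ℝ) ^ s)).image (· + 1)) := by
    intro s hs
    rw [Finset.mem_filter, Finset.mem_Icc] at hs
    rw [Finset.mem_insert]
    by_cases h1 : s = 1
    · exact Or.inl h1
    · right
      obtain ⟨t, rfl⟩ : ∃ t, s = t + 1 := ⟨s - 1, by omega⟩
      refine Finset.mem_image.2 ⟨t, Finset.mem_filter.2 ⟨Finset.mem_Icc.2 ⟨by omega, by omega⟩, ?_⟩,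
        rfl⟩
      have := hs.2
      rw [pow_succ] at this
      linarith
  refine (Finset.card_le_card hsub).trans ((Finset.card_insert_le _ _).trans ?_)
  have := Finset.card_image_le
    (s := (Finset.Icc 1 N).filter fun s => ‖a - b‖ ≤ (1 / 2 : ℝ) ^ s) (f := (· + 1))
  omega

/-- dyadic cell of a real number -/
noncomputable def cl (s : ℕ) (t : ℝ) : ℤ := ⌊2 ^ s * t / 2⌋

lemma cl_nest (s : ℕ) (a b : ℝ) (h : cl (s + 1) a = cl (s + 1) b) : cl s a = cl s b := by
  unfold cl at *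
  have e : ∀ t : ℝ, 2 ^ s * t / 2 = (2 ^ (s + 1) * t / 2) / ((2 : ℕ) : ℝ) := by
    intro t; push_cast; ring
  rw [e a, e b, Int.floor_div_natCast, Int.floor_div_natCast, h]

/-- the two cells next to `t` -/
noncomputable def nb (s : ℕ) (t : ℝ) : Finset ℤ := {⌊2 ^ s * t / 2 - 1 / 2⌋, ⌊2 ^ s * t / 2 - 1 / 2⌋ + 1}

lemma nb_card (s : ℕ) (t : ℝ) : (nb s t).card ≤ 2 := Finset.card_le_two

lemma mem_nb {s : ℕ} {t v : ℝ} (h : |v - t| ≤ (1 / 2) ^ s) : cl s v ∈ nb s t := by
  unfold cl nb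
  have hp : (0 : ℝ) < 2 ^ s := by positivity
  have h1 : |2 ^ s * v - 2 ^ s * t| ≤ 1 := by
    rw [← mul_sub, abs_mul, abs_of_pos hp]
    calc _ ≤ 2 ^ s * (1 / 2 : ℝ) ^ s := mul_le_mul_of_nonneg_left h hp.le
      _ = 1 := by rw [← mul_pow]; norm_num
  rw [abs_le] at h1
  have a1 : ⌊2 ^ s * t / 2 - 1 / 2⌋ ≤ ⌊2 ^ s * v / 2⌋ := Int.floor_mono (by linarith)
  have a2 : ⌊2 ^ s * v / 2⌋ ≤ ⌊2 ^ s * t / 2 - 1 / 2 + 1⌋ := Int.floor_mono (by linarith)
  rw [Int.floor_add_one] at a2
  rw [Finset.mem_insert, Finset.mem_singleton]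
  omega

lemma of_mem_nb {s : ℕ} {t v : ℝ} (h : cl s v ∈ nb s t) : |v - t| ≤ 3 * (1 / 2) ^ s := by
  unfold cl nb at h
  have hp : (0 : ℝ) < 2 ^ s := by positivity
  rw [Finset.mem_insert, Finset.mem_singleton] at h
  have a1 := Int.floor_le (2 ^ s * v / 2)
  have a2 := Int.lt_floor_add_one (2 ^ s * v / 2)
  have a3 := Int.floor_le (2 ^ s * t / 2 - 1 / 2)
  have a4 := Int.lt_floor_add_one (2 ^ s * t / 2 - 1 / 2)
  have h1 : |2 ^ s * v - 2 ^ s * t| ≤ 3 := by
    rw [abs_le]
    rcases h with h | h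
    · rw [h] at a1 a2; constructor <;> linarith
    · rw [h] at a1 a2; push_cast at a1 a2; constructor <;> linarith
  rw [← mul_sub, abs_mul, abs_of_pos hp] at h1
  rw [one_div, inv_pow, ← div_eq_mul_inv, le_div_iff₀ hp]
  linarith

lemma prod_rep {Ω : Type} (S : Finset Ω) (Nn : Ω → ℕ) (z : Ω → ℂ) (f : ℂ → ℝ) :
    ((∑ y ∈ S, Multiset.replicate (Nn y) (z y)).map f).prod = ∏ y ∈ S, f (z y) ^ Nn y ∧
    (∑ y ∈ S, Multiset.replicate (Nn y) (z y)).card = ∑ y ∈ S, Nn y := by
  classical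
  induction S using Finset.induction_on with
  | empty => simp
  | insert a S ha ih =>
    rw [Finset.sum_insert ha, Finset.prod_insert ha, Finset.sum_insert ha, Multiset.map_add,
      Multiset.prod_add, Multiset.card_add, ih.1, ih.2]
    simp

lemma nodes {Ω : Type} [Fintype Ω] (μ : Ω → ℝ) (hμ : ∀ y, 0 ≤ μ y) (z : Ω → ℂ) (N : ℕ)
    (hz : ∀ y, 0 < μ y → ‖z y‖ ≤ 1 / 2) : ∃ Nd : Multiset ℂ, (Nd.card : ℝ) ≤ ∑ y, μ y ∧
      (∀ x ∈ Nd, ‖x‖ ≤ 1 / 2) ∧ ∀ ζ : ℂ, ‖ζ‖ ≤ 1 / 2 → 5 * (N : ℝ) ≤ ∑ y, μ y * kk N ζ (z y) →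
        (Nd.map fun x => ‖ζ - x‖).prod ≤ 8 ^ Nd.card * (1 / 2 : ℝ) ^ N := by
  classical
  let cell : ℕ → Ω → ℤ × ℤ := fun s y => (cl s (z y).re, cl s (z y).im)
  obtain ⟨Nn, a1, a2, a3⟩ := rounding μ hμ N cell (fun s x y h => by
    simp only [cell, Prod.mk.injEq] at h ⊢
    exact ⟨cl_nest s _ _ h.1, cl_nest s _ _ h.2⟩)
  refine ⟨∑ y, Multiset.replicate (Nn y) (z y), ?_, ?_, ?_⟩
  · rw [(prod_rep univ Nn z (fun _ => 0)).2]
    push_cast
    exact fib_total (cell 0) (fun y => (Nn y : ℝ)) μ a2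
  · intro x hx
    obtain ⟨y, -, hy⟩ := Multiset.mem_sum.1 hx
    obtain ⟨h1, rfl⟩ := Multiset.mem_replicate.1 hy
    exact hz y (a1 y h1)
  · intro ζ hζ h5
    rw [(prod_rep univ Nn z _).1, (prod_rep univ Nn z (fun _ => 0)).2]
    let C : ℕ → Finset (ℤ × ℤ) := fun s => nb s ζ.re ×ˢ nb s ζ.im
    let k : Ω → ℕ := fun y => ((Finset.Icc 1 N).filter fun s => cell s y ∈ C s).card
    have hC : ∀ s, ((C s).card : ℝ) ≤ 4 := by
      intro s
      have : (C s).card ≤ 2 * 2 := by
        rw [Finset.card_product]; exact Nat.mul_le_mul (nb_card _ _) (nb_card _ _)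
      exact_mod_cast this
    have hk : ∀ y, Nn y ≠ 0 → ‖ζ - z y‖ ≤ 8 * (1 / 2 : ℝ) ^ k y := by
      intro y hy
      rcases Nat.eq_zero_or_pos (k y) with h0 | hpos
      · rw [h0]
        have := hz y (a1 y hy)
        linarith [norm_sub_le ζ (z y)]
      · obtain ⟨s, hs, hks⟩ : ∃ s ∈ (Finset.Icc 1 N).filter (fun s => cell s y ∈ C s),
            k y ≤ s := by
          by_contra hh
          push Not at hh
          have : (Finset.Icc 1 N).filter (fun s => cell s y ∈ C s) ⊆ Finset.Icc 1 (k y - 1) := by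
            intro s hs
            have h1 := hh s hs
            have h2 := (Finset.mem_Icc.1 (Finset.mem_filter.1 hs).1).1
            exact Finset.mem_Icc.2 ⟨h2, by omega⟩
          have h3 := Finset.card_le_card this
          rw [Nat.card_Icc] at h3
          change k y ≤ _ at h3
          omega
        have hm := Finset.mem_product.1 (Finset.mem_filter.1 hs).2
        have b1 := of_mem_nb hm.1
        have b2 := of_mem_nb hm.2
        have b3 := Complex.norm_le_abs_re_add_abs_im (z y - ζ)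
        rw [Complex.sub_re, Complex.sub_im] at b3
        have b4 : (1 / 2 : ℝ) ^ s ≤ (1 / 2) ^ k y :=
          pow_le_pow_of_le_one (by norm_num) (by norm_num) hks
        have b5 : (0 : ℝ) ≤ (1 / 2) ^ k y := by positivity
        rw [norm_sub_rev]
        linarith
    have hsum : N ≤ ∑ y, k y * Nn y := by
      have e1 : ((∑ y, k y * Nn y : ℕ) : ℝ) = ∑ s ∈ Finset.Icc 1 N,
          ∑ y ∈ univ.filter (fun y => cell s y ∈ C s), (Nn y : ℝ) := by
        push_cast
        simp only [k, Finset.card_filter, Finset.sum_filter]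
        rw [Finset.sum_comm]
        refine Finset.sum_congr rfl fun y _ => ?_
        push_cast
        rw [Finset.sum_mul]
        exact Finset.sum_congr rfl fun s _ => by split_ifs <;> simp
      have e2 : ∑ y, μ y * kk N ζ (z y) = ∑ s ∈ Finset.Icc 1 N,
          ∑ y ∈ univ.filter (fun y => ‖ζ - z y‖ ≤ (1 / 2 : ℝ) ^ s), μ y := by
        simp only [kk, Finset.card_filter, Finset.sum_filter]
        rw [Finset.sum_comm]
        refine Finset.sum_congr rfl fun y _ => ?_
        push_cast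
        rw [Finset.mul_sum]
        exact Finset.sum_congr rfl fun s _ => by split_ifs <;> simp
      have e3 : ∀ s ∈ Finset.Icc 1 N,
          ∑ y ∈ univ.filter (fun y => ‖ζ - z y‖ ≤ (1 / 2 : ℝ) ^ s), μ y ≤
            ∑ y ∈ univ.filter (fun y => cell s y ∈ C s), (Nn y : ℝ) + 4 := by
        intro s hs
        have h1 := fib_le (cell s) μ (fun y => (Nn y : ℝ)) 1 (C s)
          (a3 s (Finset.mem_Icc.1 hs).2)
        have h2 : ∑ y ∈ univ.filter (fun y => ‖ζ - z y‖ ≤ (1 / 2 : ℝ) ^ s), μ y ≤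
            ∑ y ∈ univ.filter (fun y => cell s y ∈ C s), μ y := by
          refine Finset.sum_le_sum_of_subset_of_nonneg (fun y hy => ?_) fun y _ _ => hμ y
          have hy' := (Finset.mem_filter.1 hy).2
          rw [norm_sub_rev] at hy'
          refine Finset.mem_filter.2 ⟨Finset.mem_univ _, Finset.mem_product.2 ⟨?_, ?_⟩⟩
          · exact mem_nb (by simpa using (Complex.abs_re_le_norm (z y - ζ)).trans hy')
          · exact mem_nb (by simpa using (Complex.abs_im_le_norm (z y - ζ)).trans hy')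
        linarith [hC s]
      have e4 := Finset.sum_le_sum e3
      rw [← e2, Finset.sum_add_distrib, ← e1] at e4
      simp only [Finset.sum_const, Nat.card_Icc, add_tsub_cancel_right, nsmul_eq_mul] at e4
      have : (N : ℝ) ≤ ((∑ y, k y * Nn y : ℕ) : ℝ) := by linarith
      exact_mod_cast this
    calc ∏ y, ‖ζ - z y‖ ^ Nn y ≤ ∏ y, (8 * (1 / 2 : ℝ) ^ k y) ^ Nn y := by
          refine Finset.prod_le_prod (fun y _ => by positivity) fun y _ => ?_
          by_cases hy : Nn y = 0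
          · simp [hy]
          · exact pow_le_pow_left₀ (norm_nonneg _) (hk y hy) _
      _ = 8 ^ (∑ y, Nn y) * (1 / 2 : ℝ) ^ (∑ y, k y * Nn y) := by
          simp only [mul_pow, Finset.prod_mul_distrib, ← pow_mul, Finset.prod_pow_eq_pow_sum]
      _ ≤ _ := mul_le_mul_of_nonneg_left
          (pow_le_pow_of_le_one (by norm_num) (by norm_num) hsum) (by positivity)

theorem classL : Pool.Agent.H222Z.ES.ClassStm := by
  intro Ω _ w z n N hw hz hN
  classical
  have hN' : (1 : ℝ) ≤ N := by exact_mod_cast hN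
  by_cases h0 : n = 0 ∨ ∑ ω, w ω = 0
  · refine ⟨fun _ => 0, 0, 0, 0, 0, fun ω => ⟨le_rfl, hw ω⟩, le_rfl, by positivity, by simp,
      le_rfl, le_rfl, by norm_num, by simp, by simp, by simp, by simp, by simp, ?_⟩
    intro hn _ ω hω
    rcases h0 with h0 | h0
    · omega
    · exact absurd ((Finset.sum_eq_zero_iff_of_nonneg fun y _ => hw y).1 h0 ω
        (Finset.mem_univ _)).symm hω
  push Not at h0
  have hn : (0 : ℝ) < n := by exact_mod_cast Nat.pos_of_ne_zero h0.1
  set a := ∑ ω, w ω with ha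
  have hapos : 0 < a := lt_of_le_of_ne (Finset.sum_nonneg fun y _ => hw y) (Ne.symm h0.2)
  obtain ⟨ν, hν, hU1, hU2⟩ := equil (fun y => n / a * w y)
    (fun y => mul_nonneg (by positivity) (hw y)) (fun x y => 1 + (kk N (z x) (z y) : ℝ))
    (fun x y => by rw [kk_comm]) (21 * N)
  set L := ∑ y, ν y with hL
  have hL0 : 0 ≤ L := Finset.sum_nonneg fun y _ => (hν y).1
  have hsplit : ∀ x, ∑ y, ν y * (1 + (kk N (z x) (z y) : ℝ)) =
      L + ∑ y, ν y * (kk N (z x) (z y) : ℝ) := by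
    intro x; simp only [mul_add, mul_one, Finset.sum_add_distrib, hL]
  have hsupp : ∀ y, 0 < ν y → ‖z y‖ ≤ 1 / 2 := by
    intro y hy
    refine hz y fun h => ?_
    have := (hν y).2
    simp only [h, mul_zero] at this
    linarith
  have hmax : ∀ ζ : ℂ, L ≤ 21 * N ∧ ∑ y, ν y * (kk N (z y) ζ : ℝ) ≤ 21 * N := by
    intro ζ
    by_cases hS : (univ.filter fun y => 0 < ν y).Nonempty
    · obtain ⟨x, hx, hmin⟩ := Finset.exists_min_image _ (fun y => ‖z y - ζ‖) hS
      have h1 := hU1 x (Finset.mem_filter.1 hx).2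
      constructor
      · rw [hsplit] at h1
        have : 0 ≤ ∑ y, ν y * (kk N (z x) (z y) : ℝ) :=
          Finset.sum_nonneg fun y _ => mul_nonneg (hν y).1 (by positivity)
        linarith
      · refine le_trans (Finset.sum_le_sum fun y _ => ?_) h1
        rcases (hν y).1.eq_or_lt with hy | hy
        · rw [← hy]; simp
        · refine mul_le_mul_of_nonneg_left ?_ hy.le
          have := kk_near (N := N) (hmin y (Finset.mem_filter.2 ⟨Finset.mem_univ _, hy⟩))
          rw [kk_comm N (z y) (z x)] at this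
          exact_mod_cast this
    · have hz0 : ∀ y, ν y = 0 := by
        intro y
        by_contra hy
        exact hS ⟨y, Finset.mem_filter.2 ⟨Finset.mem_univ _, lt_of_le_of_ne (hν y).1 (Ne.symm hy)⟩⟩
      simp only [hL, hz0, zero_mul, Finset.sum_const_zero]
      constructor <;> positivity
  obtain ⟨Nd, d1, d2, d3⟩ := nodes (fun y => ν y / 4) (fun y => by linarith [(hν y).1]) z N
    (fun y hy => hsupp y (by linarith))
  have hsu : ∑ ω, a / n * ν ω = a / n * L := by rw [hL, Finset.mul_sum]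
  have hc : 0 < a / n := by positivity
  have gen : ∀ (f : Ω → ℝ) (B : ℝ), ∑ y, ν y * f y ≤ B →
      ∑ y, a / n * ν y * f y ≤ B / L * ∑ ω, a / n * ν ω := by
    intro f B h
    rw [hsu]
    rcases hL0.eq_or_lt with hL1 | hL1
    · have hz0 := (Finset.sum_eq_zero_iff_of_nonneg fun y _ => (hν y).1).1 hL1.symm
      rw [← hL1, Finset.sum_eq_zero fun y hy => by rw [hz0 y hy]; simp]; simp
    · have e1 : ∑ y, a / n * ν y * f y = a / n * ∑ y, ν y * f y := by
        rw [Finset.mul_sum]; exact Finset.sum_congr rfl fun y _ => by ring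
      have e2 : B / L * (a / n * L) = a / n * B := by field_simp
      rw [e1, e2]
      exact mul_le_mul_of_nonneg_left h hc.le
  have hdiv : ∀ B : ℝ, 0 ≤ B → B / L * L ≤ B := by
    intro B hB
    rcases hL0.eq_or_lt with hL1 | hL1
    · rw [← hL1]; simpa using hB
    · rw [div_mul_cancel₀ _ hL1.ne']
  refine ⟨fun ω => a / n * ν ω, L, 21 / L, 21 * N / L, Nd, fun ω => ⟨mul_nonneg hc.le (hν ω).1, ?_⟩,
    hL0, (hmax 0).1, ?_, by positivity, by positivity, hdiv _ (by norm_num),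
    hdiv _ (by positivity), fun ζ => gen _ _ ?_, fun ζ => gen _ _ (hmax ζ).2, ?_, d2, ?_⟩
  · calc a / n * ν ω ≤ a / n * (n / a * w ω) := mul_le_mul_of_nonneg_left (hν ω).2 hc.le
      _ = w ω := by field_simp
  · rw [hsu]; field_simp
  · have h1 := (hmax ζ).2
    have h2 : N * ∑ y, ν y * ind (‖z y - ζ‖ ≤ (1 / 2 : ℝ) ^ N) ≤
        ∑ y, ν y * (kk N (z y) ζ : ℝ) := by
      rw [Finset.mul_sum]
      refine Finset.sum_le_sum fun y _ => ?_
      by_cases hy : ‖z y - ζ‖ ≤ (1 / 2 : ℝ) ^ N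
      · rw [ind_pos hy, kk_deep hy]; linarith
      · rw [ind_neg hy]
        have := mul_nonneg (hν y).1 (Nat.cast_nonneg (α := ℝ) (kk N (z y) ζ))
        linarith
    by_contra hcon
    push Not at hcon
    nlinarith
  · rw [← Finset.sum_div] at d1; exact d1
  · intro _ hLN ω hω
    have hlt : ν ω < n / a * w ω := by
      refine lt_of_le_of_ne (hν ω).2 fun h => hω ?_
      change a / n * ν ω = w ω
      rw [h]; field_simp
    have hw0 : w ω ≠ 0 := by
      intro h
      rw [h, mul_zero] at hlt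
      linarith [(hν ω).1]
    refine d3 (z ω) (hz ω hw0) ?_
    have h1 := hU2 ω hlt
    rw [hsplit] at h1
    have e : ∑ y, ν y / 4 * (kk N (z ω) (z y) : ℝ) = (∑ y, ν y * (kk N (z ω) (z y) : ℝ)) / 4 := by
      rw [Finset.sum_div]; exact Finset.sum_congr rfl fun y _ => by ring
    rw [e]; linarith

end Pool.Agent.H90Z.ES
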